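import Pool.Agent.Work.MP_def58e_two.Main2

/-!
MP_def58e_co (helper99; the kernel method, the solver and the rounding are helper90's): two touching
balls of a packing of unit balls which both have at least eleven neighbours have a common
neighbour.

Route: without a common neighbour the ten other neighbours of either ball would give two families
of ten unit vectors which are excluded by a pair of kernels with a pole (degree 11, exact sums of
squares, checked by kernel computation with integer polynomials).
-/

set_option autoImplicit false

namespace Pool.Agent.Results.MP_def58e_co.CommonNeighbour

open MPdef58e

/-- Let `C` be the set of centres of a packing of unit balls in three-space and let `x`, `y` in `C`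
be centres of touching balls which both have at least eleven neighbours. Then some ball of the
packing touches both. -/
theorem result (C : Set E3) (hC : IsPacking C) (x : E3) (hx : x ∈ C) (y : E3) (hy : y ∈ C)
    (hxy : dist x y = 2) (hNx : (11 : ℕ∞) ≤ (neighbours C x).encard)
    (hNy : (11 : ℕ∞) ≤ (neighbours C y).encard) :
    ∃ z ∈ C, dist x z = 2 ∧ dist y z = 2 :=
  MPdef58eTwo.common_neighbour hC hx hy hxy hNx hNy

end Pool.Agent.Results.MP_def58e_co.CommonNeighbour
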