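import Pool.Agent.Work.MP_def58e_two.Main
import Pool.Agent.Work.MP_def58e_two.Main2

/-!
MP_def58e_co (helper99; the kernel method, the solver and the rounding are helper90's): the
contact graph of an eleven-neighbour packing, and even of a ten-neighbour packing, is connected,
with a linear bound.

Route: two stars of ten (eleven) neighbours at distance `r > 2`, moved together until their centres
are at distance `2`, would give two families of unit vectors which are excluded by a pair of
kernels with a pole (degree 11 for ten, degree 7 for eleven neighbours, exact sums of squares).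
So some two balls of the stars are at distance less than `r - 1/250` (`r - 1/5`).
-/

set_option autoImplicit false

namespace Pool.Agent.Results.MP_def58e_co.ContactGraph

open MPdef58e

/-- Any two centres `x`, `y` of a ten-neighbour packing of unit balls in three-space are joined by a
chain of at most `500 |x - y|` steps, each from a ball to a touching ball; in an eleven-neighbour
packing at most `10 |x - y|` steps are enough. -/
theorem result (C : Set E3) (hC : IsNeighbourPacking 10 C) (x : E3) (hx : x ∈ C) (y : E3)
    (hy : y ∈ C) :
    ∃ (n : ℕ) (c : ℕ → E3), (n : ℝ) ≤ 500 * dist x y ∧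
      (IsNeighbourPacking 11 C → (n : ℝ) ≤ 10 * dist x y) ∧ c 0 = x ∧ c n = y ∧
      (∀ i ≤ n, c i ∈ C) ∧ ∀ i < n, dist (c i) (c (i + 1)) = 2 := by
  by_cases h11 : IsNeighbourPacking 11 C
  · obtain ⟨n, hn, c, h⟩ := MPdef58eTwo.chain_eleven h11 hx hy
    have := dist_nonneg (x := x) (y := y)
    exact ⟨n, c, by linarith, fun _ => hn, h⟩
  · obtain ⟨n, hn, c, h⟩ := MPdef58eTwo.chain_ten hC hx hy
    exact ⟨n, c, hn, fun h => absurd h h11, h⟩

end Pool.Agent.Results.MP_def58e_co.ContactGraph
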