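import Pool.Agent.Work.MP_def58e_co.Penta5

namespace Pool.Agent.Results.MP_def58e_co.DensityLower

open MPdef58e

/-- Every eleven-neighbour packing of closed unit balls in three-space has lower density at least
`371/1000`. -/
theorem result :
    (∀ C : Set E3, IsNeighbourPacking 11 C → 371 / 1000 ≤ lowerDensity C) ∧
      371 / 1000 ≤ minDensity 11 :=
  ⟨fun _ hC => lower_three hC, le_min_three⟩

end Pool.Agent.Results.MP_def58e_co.DensityLower
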