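import Pool.Agent.Work.MP_def58e_co.BarlowCount
import Pool.Agent.Work.MP_def58e_gap.Barlow
import Pool.Agent.Work.MP_def58e_gap.Final

namespace Pool.Agent.Results.MP_def58e_co.GapClass

open MPdef58e

/-- No two neighbours of a ball have their centres at a distance strictly between `2` and `2 √2`
(the balls have radius `1`). -/
def GapPacking (C : Set E3) : Prop :=
  ∀ x ∈ C, ∀ y ∈ neighbours C x, ∀ z ∈ neighbours C x, dist y z ≤ 2 ∨ 2 * Real.sqrt 2 ≤ dist y z

/-- The minimum lower density of the eleven-neighbour packings in which no two neighbours of a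
ball are at a distance strictly between `2` and `2 √2` is `12/13` times `π/√18`.  It is attained
inside the face-centred cubic packing, the class contains every packing that lies in an isometric
copy of a Barlow packing, and the value bounds the minimum density of all eleven-neighbour
packings from above. -/
theorem result :
    (∃ C : Set E3, C ⊆ barlow (fun n => n) ∧ IsNeighbourPacking 11 C ∧ GapPacking C ∧
      lowerDensity C = 12 / 13 * (Real.pi / Real.sqrt 18)) ∧
    (∀ C : Set E3, IsNeighbourPacking 11 C → GapPacking C →
      12 / 13 * (Real.pi / Real.sqrt 18) ≤ lowerDensity C) ∧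
    (∀ τ : ℤ → ℤ, IsStacking τ → ∀ g : E3 ≃ᵢ E3, ∀ C : Set E3, C ⊆ g '' barlow τ →
      GapPacking C) ∧
    minDensity 11 ≤ 12 / 13 * (Real.pi / Real.sqrt 18) := by
  refine ⟨⟨thin, thin_sub, thin_packing, ?_, thin_density⟩,
    fun C h1 h2 => MPgap.gap_density C h1 h2,
    fun τ hτ g C hC => MPdef58eGap.gap_barlow hτ g hC, min_le⟩
  refine MPdef58eGap.gap_barlow cubic_stacking (IsometryEquiv.refl E3) ?_
  intro x hx
  exact ⟨x, thin_sub hx, rfl⟩

end Pool.Agent.Results.MP_def58e_co.GapClass
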